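import Pool.Agent.H211.CH.Stm

/-!
# Power maps: up, down, roots, iterates, conjugation (helper860, for helper211)
-/

set_option autoImplicit false

open Polynomial

namespace Pool.Agent.H860.CH211

open Pool.Agent.H211.CH

universe u

variable {K : Type u} [Field K]

/-- a map with a totally ramified fixed point is a power map -/
lemma pow_of_fibre [IsAlgClosed K] {Y : K[X]} (hY : 0 < Y.natDegree) {a : K}
    (h : ∀ y, Y.eval y = a → y = a) :
    Y = C a + C Y.leadingCoeff * (X - C a) ^ Y.natDegree := by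
  have hnd : (Y - C a).natDegree = Y.natDegree := natDegree_sub_C
  have hlc : (Y - C a).leadingCoeff = Y.leadingCoeff := by
    rw [leadingCoeff, hnd, coeff_sub, coeff_C, if_neg hY.ne', sub_zero, leadingCoeff]
  have hs : (Y - C a).Splits := IsAlgClosed.splits _
  have hroots : (Y - C a).roots = Multiset.replicate Y.natDegree a := by
    rw [Multiset.eq_replicate]
    refine ⟨?_, ?_⟩
    · rw [← hnd]
      exact hs.natDegree_eq_card_roots.symm
    · intro y hy
      rw [mem_roots', IsRoot, eval_sub, eval_C] at hy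
      exact h y (sub_eq_zero.1 hy.2)
  have h1 := hs.eq_prod_roots
  rw [hroots, hlc, Multiset.map_replicate, Multiset.prod_replicate] at h1
  rw [← h1]
  ring

/-- the constant is not zero -/
lemma cst_ne {F : K[X]} {w c : K} {D : ℕ} (hD : 0 < F.natDegree)
    (hF : F = C w + C c * (X - C w) ^ D) : c ≠ 0 := by
  rintro rfl
  rw [C_0, zero_mul, add_zero] at hF
  rw [hF, natDegree_C] at hD
  exact lt_irrefl _ hD

lemma fibre_of_pow {F : K[X]} {w c : K} {D : ℕ} (hD : 0 < F.natDegree)
    (hF : F = C w + C c * (X - C w) ^ D) {y : K} (hy : F.eval y = w) : y = w := by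
  have hc := cst_ne hD hF
  rw [hF] at hy
  simp only [eval_add, eval_C, eval_mul, eval_pow, eval_sub, eval_X] at hy
  have h1 : c * (y - w) ^ D = 0 := by linear_combination hy
  have h2 := (mul_eq_zero.1 h1).resolve_left hc
  exact sub_eq_zero.1 (eq_zero_of_pow_eq_zero h2)

lemma eval_of_pow {F : K[X]} {w c : K} {D : ℕ} (hD0 : D ≠ 0)
    (hF : F = C w + C c * (X - C w) ^ D) : F.eval w = w := by
  rw [hF]
  simp [hD0]

/-- comparison of multiplicities -/
lemma exp_eq {w : K} {m n : ℕ} {u v : K[X]} (h : (X - C w) ^ m * u = (X - C w) ^ n * v)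
    (hu : u.eval w ≠ 0) (hv : v.eval w ≠ 0) : m = n := by
  have key : ∀ {m n : ℕ} {u v : K[X]}, (X - C w) ^ m * u = (X - C w) ^ n * v → u.eval w ≠ 0 →
      n ≤ m := by
    intro m n u v h hu
    by_contra hlt
    push Not at hlt
    obtain ⟨k, rfl⟩ := Nat.exists_eq_add_of_lt hlt
    have h0 : (X - C w) ^ m ≠ 0 := pow_ne_zero _ (X_sub_C_ne_zero w)
    have h1 : (X - C w) ^ (m + k + 1) * v = (X - C w) ^ m * ((X - C w) ^ (k + 1) * v) := by ring
    rw [h1] at h
    have h2 := mul_left_cancel₀ h0 h
    apply hu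
    rw [h2]
    simp
  exact le_antisymm (key h.symm hv) (key h hu)

lemma natDegree_eq_of_semi {F p Y : K[X]} (hp : 0 < p.natDegree) (h : F.comp p = p.comp Y) :
    F.natDegree = Y.natDegree := by
  have h1 : F.natDegree * p.natDegree = p.natDegree * Y.natDegree := by
    rw [← natDegree_comp, ← natDegree_comp, h]
  rw [mul_comm] at h1
  exact Nat.eq_of_mul_eq_mul_left hp h1

/-- **Down**: with the centre -/
lemma down {F p Y : K[X]} {w c : K} (hY : Y = C w + C c * (X - C w) ^ Y.natDegree)
    (hD : 2 ≤ Y.natDegree) (hp : 0 < p.natDegree) (h : F.comp p = p.comp Y) :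
    ∃ c' : K, F = C (p.eval w) + C c' * (X - C (p.eval w)) ^ F.natDegree := by
  have hFD := natDegree_eq_of_semi hp h
  have hc : c ≠ 0 := cst_ne (by omega) hY
  set v := p.eval w with hv
  have hF0 : F - C v ≠ 0 := by
    intro h0
    have h1 : (F - C v).natDegree = F.natDegree := natDegree_sub_C
    rw [h0, natDegree_zero] at h1
    omega
  have hp0 : p - C v ≠ 0 := by
    intro h0
    have h1 : (p - C v).natDegree = p.natDegree := natDegree_sub_C
    rw [h0, natDegree_zero] at h1
    omega
  obtain ⟨g, hg, hgv⟩ := exists_eq_pow_rootMultiplicity_mul_and_not_dvd (F - C v) hF0 v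
  obtain ⟨q, hq, hqw⟩ := exists_eq_pow_rootMultiplicity_mul_and_not_dvd (p - C v) hp0 w
  set a := (F - C v).rootMultiplicity v with ha
  set e := (p - C v).rootMultiplicity w with he
  have hgv' : g.eval v ≠ 0 := fun h0 => hgv (dvd_iff_isRoot.2 h0)
  have hqw' : q.eval w ≠ 0 := fun h0 => hqw (dvd_iff_isRoot.2 h0)
  have he0 : 0 < e := by
    rw [he, rootMultiplicity_pos hp0]
    show (p - C v).eval w = 0
    rw [eval_sub, eval_C, hv, sub_self]
  have hYw : Y.eval w = w := eval_of_pow (by omega) hY
  have h1 : (F - C v).comp p = (p - C v).comp Y := by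
    rw [sub_comp, sub_comp, C_comp, C_comp, h]
  have h2 : (F - C v).comp p = (X - C w) ^ (e * a) * (q ^ a * g.comp p) := by
    have h3 : (F - C v).comp p = (p - C v) ^ a * g.comp p := by
      rw [hg]
      simp only [mul_comp, pow_comp, sub_comp, X_comp, C_comp]
    rw [h3]
    conv_lhs => rw [hq]
    rw [mul_pow, ← pow_mul]
    ring
  have h4 : (p - C v).comp Y = (X - C w) ^ (Y.natDegree * e) * (C c ^ e * q.comp Y) := by
    have h3 : (p - C v).comp Y = (Y - C w) ^ e * q.comp Y := by
      rw [hq]
      simp only [mul_comp, pow_comp, sub_comp, X_comp, C_comp]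
    have h5 : Y - C w = C c * (X - C w) ^ Y.natDegree := by
      conv_lhs => rw [hY]
      ring
    rw [h3, h5, mul_pow, ← pow_mul]
    ring
  rw [h2, h4] at h1
  have h6 := exp_eq h1 (by
    rw [eval_mul, eval_pow, eval_comp]
    exact mul_ne_zero (pow_ne_zero _ hqw') hgv') (by
    rw [eval_mul, eval_pow, eval_comp, eval_C, hYw]
    exact mul_ne_zero (pow_ne_zero _ hc) hqw')
  have haD : a = F.natDegree := by
    rw [hFD]
    rw [mul_comm] at h6
    exact Nat.eq_of_mul_eq_mul_right he0 h6
  have hg0 : g ≠ 0 := by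
    rintro rfl
    exact hgv' (by simp)
  have hgd : g.natDegree = 0 := by
    have h7 : (F - C v).natDegree = F.natDegree := natDegree_sub_C
    rw [hg, natDegree_mul (pow_ne_zero _ (X_sub_C_ne_zero v)) hg0, natDegree_pow,
      natDegree_X_sub_C, mul_one, haD] at h7
    omega
  refine ⟨g.coeff 0, ?_⟩
  have h8 := eq_C_of_natDegree_eq_zero hgd
  rw [← h8, ← haD, mul_comm, ← hg]
  ring

/-- the centre is unique -/
lemma centre [CharZero K] {F : K[X]} {w v c c' : K} {D : ℕ} (hD : 2 ≤ D) (hc : c ≠ 0)
    (h1 : F = C w + C c * (X - C w) ^ D) (h2 : F = C v + C c' * (X - C v) ^ D) : v = w := by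
  obtain ⟨k, rfl⟩ := Nat.exists_eq_add_of_le hD
  have h3 : (derivative F).eval v = c * ((2 + k : ℕ) * (v - w) ^ (1 + k)) := by
    rw [h1]
    simp only [derivative_add, derivative_C, derivative_C_mul, derivative_X_sub_C_pow, eval_add,
      eval_mul, eval_C, eval_pow, eval_sub, eval_X, eval_zero]
    have : 2 + k - 1 = 1 + k := by omega
    rw [this]
    simp
  have h4 : (derivative F).eval v = 0 := by
    rw [h2]
    simp only [derivative_add, derivative_C, derivative_C_mul, derivative_X_sub_C_pow, eval_add,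
      eval_mul, eval_C, eval_pow, eval_sub, eval_X, eval_zero, sub_self]
    have : 2 + k - 1 = 1 + k := by omega
    rw [this, zero_pow (by omega)]
    ring
  rw [h4] at h3
  have h5 := (mul_eq_zero.1 h3.symm).resolve_left hc
  have h6 := (mul_eq_zero.1 h5).resolve_left (by
    exact_mod_cast (by omega : (2 + k : ℕ) ≠ 0))
  exact sub_eq_zero.1 (eq_zero_of_pow_eq_zero h6)

/-! ### iterates -/

lemma it_zero (P : K[X]) : it P 0 = X := rfl

lemma it_succ (P : K[X]) (n : ℕ) : it P (n + 1) = P.comp (it P n) := by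
  unfold it
  rw [Function.iterate_succ_apply']

lemma it_comm (P : K[X]) (n : ℕ) : (it P n).comp P = P.comp (it P n) := by
  induction n with
  | zero => rw [it_zero, X_comp, comp_X]
  | succ n ih => rw [it_succ, comp_assoc, ih]

lemma it_natDegree (P : K[X]) (n : ℕ) : (it P n).natDegree = P.natDegree ^ n := by
  induction n with
  | zero => rw [it_zero, natDegree_X, pow_zero]
  | succ n ih => rw [it_succ, natDegree_comp, ih, pow_succ, mul_comm]

lemma it_eval_fix (P : K[X]) {w : K} (h : P.eval w = w) (n : ℕ) : (it P n).eval w = w := by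
  induction n with
  | zero => rw [it_zero, eval_X]
  | succ n ih => rw [it_succ, eval_comp, ih, h]

/-- (1) up -/
lemma up [IsAlgClosed K] (hRH : S_RH K) {F p Y : K[X]} (hF : Pow F) (hD : 2 ≤ F.natDegree)
    (hp : 0 < p.natDegree) (h : F.comp p = p.comp Y) : Pow Y := by
  classical
  obtain ⟨w, c, hFw⟩ := hF
  have hFD := natDegree_eq_of_semi hp h
  have hFe : F.eval w = w := eval_of_pow (by omega) hFw
  have hp0 : p - C w ≠ 0 := by
    intro h0
    have h1 : (p - C w).natDegree = p.natDegree := natDegree_sub_C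
    rw [h0, natDegree_zero] at h1
    omega
  set Z : Finset K := (p - C w).roots.toFinset with hZ
  have hmem : ∀ z, z ∈ Z ↔ p.eval z = w := by
    intro z
    rw [hZ, Multiset.mem_toFinset, mem_roots hp0, IsRoot, eval_sub, eval_C, sub_eq_zero]
  have hfib : ∀ y, Y.eval y ∈ Z ↔ y ∈ Z := by
    intro y
    have h1 : p.eval (Y.eval y) = F.eval (p.eval y) := by
      rw [← eval_comp, ← eval_comp, h]
    rw [hmem, hmem, h1]
    constructor
    · intro h2
      exact fibre_of_pow (by omega) hFw h2
    · intro h2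
      rw [h2, hFe]
  have hcard : ∀ z ∈ Z, ({y : K | Y.eval y = z}.ncard : ℤ) =
      ((Z.filter (fun y => Y.eval y = z)).card : ℤ) := by
    intro z hz
    have h1 : {y : K | Y.eval y = z} = ↑(Z.filter (fun y => Y.eval y = z)) := by
      ext y
      rw [Finset.coe_filter]
      constructor
      · intro hy
        have hy' : Y.eval y = z := hy
        exact ⟨(hfib y).1 (hy' ▸ hz), hy'⟩
      · intro hy
        exact hy.2
    rw [h1, Set.ncard_coe_finset]
  have hsum : ∑ z ∈ Z, ((Z.filter (fun y => Y.eval y = z)).card : ℤ) = Z.card := by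
    have h1 := Finset.card_eq_sum_card_fiberwise (f := fun y => Y.eval y) (s := Z) (t := Z)
      (fun y hy => (hfib y).2 hy)
    rw [← Nat.cast_sum]
    exact_mod_cast h1.symm
  have h1 := hRH Y (by omega) Z
  rw [Finset.sum_sub_distrib, Finset.sum_congr rfl hcard, hsum, Finset.sum_const,
    nsmul_eq_mul, ← hFD] at h1
  have hne : Z.Nonempty := by
    obtain ⟨z, hz⟩ := IsAlgClosed.exists_root (p - C w) (by
      rw [degree_eq_natDegree hp0, natDegree_sub_C]
      exact_mod_cast hp.ne')
    refine ⟨z, (hmem z).2 ?_⟩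
    rw [IsRoot, eval_sub, eval_C, sub_eq_zero] at hz
    exact hz
  have hone : Z.card = 1 := by
    have h2 : 0 < Z.card := Finset.card_pos.2 hne
    have h3 : (Z.card : ℤ) ≤ 1 := by
      by_contra hcon
      push Not at hcon
      have h4 : (2 : ℤ) ≤ F.natDegree := by exact_mod_cast hD
      nlinarith
    omega
  obtain ⟨a, ha⟩ := Finset.card_eq_one.1 hone
  refine ⟨a, Y.leadingCoeff, pow_of_fibre (by omega) ?_⟩
  intro y hy
  have h2 : Y.eval y ∈ Z := by
    rw [hy, ha]
    exact Finset.mem_singleton_self a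
  have h3 := (hfib y).1 h2
  rw [ha] at h3
  exact Finset.mem_singleton.1 h3

/-- **Power maps.** -/
theorem t_P {K : Type u} [Field K] [IsAlgClosed K] [CharZero K] (hRH : S_RH K) : S_P K := by
  refine ⟨?_, ?_, ?_, ?_, ?_⟩
  · intro F p Y hF hD hp h
    exact up hRH hF hD hp h
  · rintro F p Y ⟨w, c, hY⟩ hD hp h
    obtain ⟨c', hc'⟩ := down hY hD hp h
    exact ⟨_, c', hc'⟩
  · rintro P n hP hn ⟨w, c, hw⟩
    have hDn : 2 ≤ (it P n).natDegree := by
      rw [it_natDegree]
      calc 2 ≤ P.natDegree ^ 1 := by rw [pow_one]; exact hP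
        _ ≤ P.natDegree ^ n := Nat.pow_le_pow_right (by omega) hn
    have hc : c ≠ 0 := cst_ne (by omega) hw
    obtain ⟨c', hc'⟩ := down hw hDn (by omega : 0 < P.natDegree) (it_comm P n)
    have hfix : P.eval w = w := centre hDn hc hw hc'
    refine ⟨w, P.leadingCoeff, pow_of_fibre (by omega) ?_⟩
    intro y hy
    refine fibre_of_pow (F := it P n) (by omega) hw ?_
    obtain ⟨k, rfl⟩ := Nat.exists_eq_add_of_le hn
    rw [add_comm, it_succ, ← it_comm, eval_comp, hy]
    exact it_eval_fix P hfix k
  · rintro P n hP hn ⟨w, c, hw⟩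
    have hfib : ∀ n y, (it P n).eval y = w → y = w := by
      intro n
      induction n with
      | zero =>
        intro y hy
        rwa [it_zero, eval_X] at hy
      | succ n ih =>
        intro y hy
        rw [it_succ, eval_comp] at hy
        exact ih y (fibre_of_pow (by omega) hw hy)
    refine ⟨w, (it P n).leadingCoeff, pow_of_fibre ?_ (hfib n)⟩
    rw [it_natDegree]
    exact pow_pos (by omega) n
  · rintro P Q hP hPQ ⟨w, c, hw⟩ ⟨w', c', hw'⟩
    have hc : c ≠ 0 := cst_ne (by omega) hw
    have hc' : c' ≠ 0 := cst_ne (by omega) hw'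
    obtain ⟨d, hd⟩ := Nat.exists_eq_add_of_le hP
    obtain ⟨l, hl⟩ := IsAlgClosed.exists_pow_nat_eq (c / c') (by omega : 0 < 1 + d)
    have hl0 : l ≠ 0 := by
      rintro rfl
      rw [zero_pow (by omega)] at hl
      exact div_ne_zero hc hc' hl.symm
    have hcc : c = c' * l ^ (1 + d) := by
      rw [hl]
      field_simp
    refine ⟨C w' + C l * (X - C w), ?_, ?_⟩
    · have h1 : C w' + C l * (X - C w) = C l * X + C (w' - l * w) := by
        rw [C_sub, C_mul]
        ring
      rw [h1, natDegree_linear hl0]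
      exact one_pos
    · rw [← hPQ] at hw'
      rw [hd] at hw hw'
      rw [hw, hw', hcc]
      simp only [add_comp, mul_comp, pow_comp, sub_comp, X_comp, C_comp, C_mul, C_pow,
        add_sub_cancel_left, mul_pow]
      ring

end Pool.Agent.H860.CH211
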